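import Mathlib

/-!
# The (1+1) EA on two-machine makespan scheduling under an adversary needs time of order n^(3/2)
(MP_dc81eb_lc)
-/

set_option autoImplicit false

namespace Pool.Agent.Results.MP_dc81eb_lc.ThreeHalves

open Finset

variable {n : ℕ}

/-- a solution assigns each job to one of the two machines `false`, `true` -/
abbrev Sol (n : ℕ) : Type := Fin n → Bool

/-- load of a machine -/
def load (x : Sol n) (p : Fin n → ℝ) (m : Bool) : ℝ := ∑ i, if x i = m then p i else 0

/-- makespan -/
noncomputable def makespan (x : Sol n) (p : Fin n → ℝ) : ℝ := max (load x p false) (load x p true)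

/-- discrepancy -/
def disc (x : Sol n) (p : Fin n → ℝ) : ℝ := |load x p false - load x p true|

/-- flip the bits in `F` -/
def flip (x : Sol n) (F : Finset (Fin n)) : Sol n := fun i => if i ∈ F then !x i else x i

/-- probability that standard bit mutation (rate `1/n`) flips exactly the bits in `F` -/
noncomputable def prob (F : Finset (Fin n)) : ℝ :=
  (1 / (n : ℝ)) ^ F.card * (1 - 1 / (n : ℝ)) ^ (n - F.card)

open Classical in
/-- the solution after mutation and selection -/
noncomputable def select (x : Sol n) (p : Fin n → ℝ) (F : Finset (Fin n)) : Sol n :=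
  if makespan (flip x F) p ≤ makespan x p then flip x F else x

/-- A history: for every past iteration the solution, the processing times used and the flipped
bits. -/
abbrev Hist (n : ℕ) : Type := List (Sol n × (Fin n → ℝ) × Finset (Fin n))

/-- Everything except the random bits: bounds `0 < L ≤ U`, initial solution and processing times,
and the adversary, who changes at most one processing time in each iteration, depending on the whole
history and the current solution and processing times. -/
structure Instance (n : ℕ) where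
  L : ℝ
  U : ℝ
  hL : 0 < L
  hU : L ≤ U
  x0 : Sol n
  p0 : Fin n → ℝ
  hp0 : ∀ i, L ≤ p0 i ∧ p0 i ≤ U
  adv : Hist n → Sol n → (Fin n → ℝ) → Fin n → ℝ
  legal : ∀ h x p, (∀ i, L ≤ p i ∧ p i ≤ U) → (∀ i, L ≤ adv h x p i ∧ adv h x p i ≤ U) ∧
    ∀ i j, adv h x p i ≠ p i → adv h x p j ≠ p j → i = j

/-- the target is reached: the discrepancy is at most `U`, before or after the adversary's change -/
def Stop (I : Instance n) (h : Hist n) (x : Sol n) (p : Fin n → ℝ) : Prop :=
  disc x p ≤ I.U ∨ disc x (I.adv h x p) ≤ I.U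

open Classical in
/-- probability that the target is not reached in the first `t + 1` iterations (that is, that
`T > t`) when the (1+1) EA is started with solution `x`, processing times `p` and history `h` -/
noncomputable def surv (I : Instance n) : ℕ → Hist n → Sol n → (Fin n → ℝ) → ℝ
  | 0, h, x, p => if Stop I h x p then 0 else 1
  | t + 1, h, x, p => if Stop I h x p then 0 else
      ∑ F : Finset (Fin n), prob F * surv I t ((x, I.adv h x p, F) :: h)
        (select x (I.adv h x p) F) (I.adv h x p)

/-- the expected time `E[T] = ∑ P(T > t)` -/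
noncomputable def expT (I : Instance n) : ENNReal :=
  ∑' t, ENNReal.ofReal (surv I t [] I.x0 I.p0)

/-- `T*(n)` -/
noncomputable def Tstar (n : ℕ) : ENNReal := ⨆ I : Instance n, expT I

/-! ### Sums over subsets -/

theorem sum_between (S T : Finset (Fin n)) (hST : S ⊆ T) (a b : ℝ) :
    ∑ F : Finset (Fin n), (if S ⊆ F ∧ F ⊆ T then a ^ F.card * b ^ (n - F.card) else 0) =
      a ^ S.card * b ^ (n - T.card) * (a + b) ^ (T.card - S.card) := by
  have hT : T.card ≤ n := by simpa using Finset.card_le_univ T
  have hTS : (T \ S).card = T.card - S.card := Finset.card_sdiff_of_subset hST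
  rw [← hTS, ← Finset.sum_pow_mul_eq_add_pow a b (T \ S), Finset.mul_sum, ← Finset.sum_filter]
  refine Finset.sum_bij' (i := fun F _ => F \ S) (j := fun G _ => S ∪ G) ?_ ?_ ?_ ?_ ?_
  · intro F hF
    obtain ⟨-, h1, h2⟩ := Finset.mem_filter.1 hF
    exact Finset.mem_powerset.2 (Finset.sdiff_subset_sdiff h2 (Finset.Subset.refl S))
  · intro G hG
    have h1 := Finset.mem_powerset.1 hG
    refine Finset.mem_filter.2 ⟨Finset.mem_univ _, Finset.subset_union_left, ?_⟩
    exact Finset.union_subset hST (h1.trans Finset.sdiff_subset)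
  · intro F hF
    obtain ⟨-, h1, h2⟩ := Finset.mem_filter.1 hF
    exact Finset.union_sdiff_of_subset h1
  · intro G hG
    have h1 := Finset.mem_powerset.1 hG
    rw [Finset.union_sdiff_left]
    exact Finset.sdiff_eq_self_of_disjoint (Finset.disjoint_of_subset_left h1
      Finset.sdiff_disjoint)
  · intro F hF
    obtain ⟨-, h1, h2⟩ := Finset.mem_filter.1 hF
    have h3 : (F \ S).card = F.card - S.card := Finset.card_sdiff_of_subset h1
    have h4 := Finset.card_le_card h1
    have h5 := Finset.card_le_card h2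
    rw [h3, hTS]
    have e1 : a ^ F.card = a ^ S.card * a ^ (F.card - S.card) := by
      rw [← pow_add]; congr 1; omega
    have e2 : b ^ (n - F.card) = b ^ (n - T.card) * b ^ (T.card - S.card - (F.card - S.card)) := by
      rw [← pow_add]; congr 1; omega
    rw [e1, e2]; ring

theorem sum_prob_between (S T : Finset (Fin n)) (hST : S ⊆ T) :
    ∑ F : Finset (Fin n), prob F * (if S ⊆ F ∧ F ⊆ T then 1 else 0) =
      (1 / (n : ℝ)) ^ S.card * (1 - 1 / (n : ℝ)) ^ (n - T.card) := by
  have h := sum_between S T hST (1 / (n : ℝ)) (1 - 1 / (n : ℝ))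
  rw [add_sub_cancel, one_pow, mul_one] at h
  rw [← h]
  refine Finset.sum_congr rfl fun F _ => ?_
  unfold prob
  split_ifs <;> simp

theorem sum_prob_sup (S : Finset (Fin n)) :
    ∑ F : Finset (Fin n), prob F * (if S ⊆ F then 1 else 0) = (1 / (n : ℝ)) ^ S.card := by
  have h := sum_prob_between S Finset.univ (Finset.subset_univ S)
  simp only [Finset.subset_univ, and_true, Finset.card_univ, Fintype.card_fin, Nat.sub_self,
    pow_zero, mul_one] at h
  exact h

theorem sum_prob : ∑  F : Finset (Fin n), prob F = 1 := by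
  have h := sum_prob_sup (∅ : Finset (Fin n))
  simpa using h

theorem prob_nonneg (hn : 0 < n) (F : Finset (Fin n)) : 0 ≤ prob F := by
  unfold prob
  have h1 : (1 : ℝ) / n ≤ 1 := by
    rw [div_le_one (by exact_mod_cast hn)]
    exact_mod_cast hn
  have h2 : (0 : ℝ) ≤ 1 / n := by positivity
  exact mul_nonneg (pow_nonneg h2 _) (pow_nonneg (by linarith) _)

/-- second exponential moment on the event that a given bit is flipped -/
theorem sum_two_pow (hn : 0 < n) (i : Fin n) :
    ∑ F : Finset (Fin n), prob F * (if i ∈ F then (2 : ℝ) ^ F.card else 0) ≤ 6 / n := by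
  have hn' : (0 : ℝ) < n := by exact_mod_cast hn
  have h := sum_between {i} Finset.univ (Finset.subset_univ _) (2 * (1 / (n : ℝ))) (1 - 1 / (n : ℝ))
  have h1 : ∑ F : Finset (Fin n), prob F * (if i ∈ F then (2 : ℝ) ^ F.card else 0) =
      ∑ F : Finset (Fin n), (if ({i} : Finset (Fin n)) ⊆ F ∧ F ⊆ Finset.univ then
        (2 * (1 / (n : ℝ))) ^ F.card * (1 - 1 / (n : ℝ)) ^ (n - F.card) else 0) := by
    refine Finset.sum_congr rfl fun F _ => ?_
    unfold prob
    by_cases hi : i ∈ F
    · rw [if_pos hi, if_pos ⟨Finset.singleton_subset_iff.2 hi, Finset.subset_univ _⟩, mul_pow]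
      ring
    · rw [if_neg hi, if_neg (fun h => hi (Finset.singleton_subset_iff.1 h.1))]
      ring
  rw [h1, h]
  simp only [Finset.card_singleton, pow_one, Finset.card_univ, Fintype.card_fin, Nat.sub_self,
    pow_zero, mul_one]
  have h2 : (2 * (1 / (n : ℝ)) + (1 - 1 / (n : ℝ))) = 1 / n + 1 := by ring
  rw [h2]
  have h3 : (1 / (n : ℝ) + 1) ^ (n - 1) ≤ 3 := by
    calc (1 / (n : ℝ) + 1) ^ (n - 1) ≤ (Real.exp (1 / n)) ^ (n - 1) :=
          pow_le_pow_left₀ (by positivity) (Real.add_one_le_exp _) _
      _ ≤ (Real.exp (1 / n)) ^ n := pow_le_pow_right₀ (Real.one_le_exp (by positivity)) (by omega)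
      _ = Real.exp 1 := by
          rw [← Real.exp_nat_mul]
          congr 1
          field_simp
      _ ≤ 3 := by linarith [Real.exp_one_lt_d9]
  calc 2 * (1 / (n : ℝ)) * (1 / n + 1) ^ (n - 1) ≤ 2 * (1 / n) * 3 :=
        mul_le_mul_of_nonneg_left h3 (by positivity)
    _ = 6 / n := by ring

/-! ### Drift theorem -/

open Classical in
theorem surv_nonneg (hn : 0 < n) (I : Instance n) : ∀ t h x p, 0 ≤ surv I t h x p := by
  intro t
  induction t with
  | zero => intro h x p; rw [surv]; split_ifs <;> norm_num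
  | succ t ih =>
    intro h x p
    rw [surv]
    split_ifs
    · exact le_rfl
    · exact Finset.sum_nonneg fun F _ => mul_nonneg (prob_nonneg hn F) (ih _ _ _)

/-- `1, P(T > 0), P(T > 1), ...` -/
noncomputable def surv' (I : Instance n) : ℕ → Hist n → Sol n → (Fin n → ℝ) → ℝ
  | 0, _, _, _ => 1
  | t + 1, h, x, p => surv I t h x p

theorem drift (hn : 0 < n) (I : Instance n) (g : Sol n → (Fin n → ℝ) → ℝ)
    (Inv : Sol n → (Fin n → ℝ) → Prop) (G : ℝ) (hG : ∀ x p, g x p ≤ G) (hG0 : 0 ≤ G)
    (hstop : ∀ h x p, Inv x p → 0 < g x p → ¬ Stop I h x p)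
    (hInv : ∀ h x p F, Inv x p → Inv (select x (I.adv h x p) F) (I.adv h x p))
    (hdrift : ∀ h x p, Inv x p → 0 < g x p → g x p ≤ 1 +
      ∑ F : Finset (Fin n), prob F * g (select x (I.adv h x p) F) (I.adv h x p)) :
    ∀ N h x p, Inv x p → g x p ≤ ∑ t ∈ Finset.range N, surv I t h x p + G * surv' I N h x p := by
  classical
  intro N
  induction N with
  | zero => intro h x p _; simpa [surv'] using hG x p
  | succ N ih =>
    intro h x p hx
    by_cases hg : 0 < g x p
    · have hs := hstop h x p hx hg
      have h0 : surv I 0 h x p = 1 := by rw [surv, if_neg hs]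
      have h1 : ∀ t, surv I (t + 1) h x p = ∑ F : Finset (Fin n), prob F *
          surv I t ((x, I.adv h x p, F) :: h) (select x (I.adv h x p) F) (I.adv h x p) := by
        intro t; rw [surv, if_neg hs]
      have h2 : surv I N h x p = ∑ F : Finset (Fin n), prob F *
          surv' I N ((x, I.adv h x p, F) :: h) (select x (I.adv h x p) F) (I.adv h x p) := by
        cases N with
        | zero => simp [surv', h0, sum_prob]
        | succ N => exact h1 N
      have h3 := hdrift h x p hx hg
      have h4 : ∑ F : Finset (Fin n), prob F * g (select x (I.adv h x p) F) (I.adv h x p) ≤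
          ∑ F : Finset (Fin n), prob F * (∑ t ∈ Finset.range N,
            surv I t ((x, I.adv h x p, F) :: h) (select x (I.adv h x p) F) (I.adv h x p) +
            G * surv' I N ((x, I.adv h x p, F) :: h) (select x (I.adv h x p) F) (I.adv h x p)) :=
        Finset.sum_le_sum fun F _ => mul_le_mul_of_nonneg_left (ih _ _ _ (hInv h x p F hx))
          (prob_nonneg hn F)
      have h5 : ∑ F : Finset (Fin n), prob F * (∑ t ∈ Finset.range N,
            surv I t ((x, I.adv h x p, F) :: h) (select x (I.adv h x p) F) (I.adv h x p) +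
            G * surv' I N ((x, I.adv h x p, F) :: h) (select x (I.adv h x p) F) (I.adv h x p)) =
          ∑ t ∈ Finset.range N, surv I (t + 1) h x p + G * surv I N h x p := by
        rw [h2, Finset.mul_sum]
        simp only [h1]
        rw [Finset.sum_comm, ← Finset.sum_add_distrib]
        refine Finset.sum_congr rfl fun F _ => ?_
        rw [mul_add, Finset.mul_sum]
        ring
      rw [Finset.sum_range_succ' (fun t => surv I t h x p), h0]
      change g x p ≤ _ + G * surv I N h x p
      linarith
    · have h1 : 0 ≤ ∑ t ∈ Finset.range (N + 1), surv I t h x p :=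
        Finset.sum_nonneg fun t _ => surv_nonneg hn I t h x p
      have h2 : 0 ≤ G * surv' I (N + 1) h x p := mul_nonneg hG0 (surv_nonneg hn I N h x p)
      linarith

theorem expT_ge (hn : 0 < n) (I : Instance n) (g G : ℝ)
    (h : ∀ N, g ≤ ∑ t ∈ Finset.range N, surv I t [] I.x0 I.p0 + G * surv' I N [] I.x0 I.p0) :
    ENNReal.ofReal g ≤ expT I := by
  by_contra hcon
  rw [not_le] at hcon
  have hfin : expT I ≠ ⊤ := ne_top_of_lt hcon
  have hnn : ∀ t, 0 ≤ surv I t [] I.x0 I.p0 := fun t => surv_nonneg hn I t _ _ _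
  have hpart : ∀ N, ∑ t ∈ Finset.range N, surv I t [] I.x0 I.p0 ≤ (expT I).toReal := by
    intro N
    have h1 : ENNReal.ofReal (∑ t ∈ Finset.range N, surv I t [] I.x0 I.p0) ≤ expT I := by
      rw [ENNReal.ofReal_sum_of_nonneg (fun t _ => hnn t)]
      exact ENNReal.sum_le_tsum _
    exact (ENNReal.ofReal_le_iff_le_toReal hfin).1 h1
  have hsum : Summable (fun t => surv I t [] I.x0 I.p0) :=
    summable_of_sum_range_le hnn hpart
  have hlim := hsum.tendsto_atTop_zero
  have h2 : g ≤ (expT I).toReal := by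
    have h3 : Filter.Tendsto (fun N => (expT I).toReal + G * surv I N [] I.x0 I.p0) Filter.atTop
        (nhds ((expT I).toReal + G * 0)) := (hlim.const_mul G).const_add _
    rw [mul_zero, add_zero] at h3
    refine ge_of_tendsto' h3 fun N => ?_
    exact (h (N + 1)).trans (add_le_add (hpart _) le_rfl)
  have h4 := ENNReal.ofReal_le_ofReal h2
  rw [ENNReal.ofReal_toReal hfin] at h4
  exact absurd hcon (not_lt.2 h4)

/-! ### The adversary -/

/-- the value that a job should have: `1` on the machine `false`, tiny on the machine `true` -/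
noncomputable def tgt (x : Sol n) (i : Fin n) : ℝ := if x i = false then 1 else 1 / (2 * (n : ℝ))

open Classical in
/-- the jobs with a wrong value -/
noncomputable def bad (x : Sol n) (p : Fin n → ℝ) : Finset (Fin n) :=
  Finset.univ.filter (fun i => p i ≠ tgt x i)

open Classical in
/-- the adversary repairs one job -/
noncomputable def fix (x : Sol n) (p : Fin n → ℝ) : Fin n → ℝ :=
  if h : ∃ i, p i ≠ tgt x i then Function.update p h.choose (tgt x h.choose) else p

theorem mem_bad {x : Sol n} {p : Fin n → ℝ} {i : Fin n} : i ∈ bad x p ↔ p i ≠ tgt x i := by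
  classical
  unfold bad
  simp

/-- number of jobs on the machine `false` -/
def kk (x : Sol n) : ℕ := (Finset.univ.filter (fun i => x i = false)).card

/-- all values are `1` or tiny -/
def Inv (_ : Sol n) (p : Fin n → ℝ) : Prop := ∀ i, p i = 1 ∨ p i = 1 / (2 * (n : ℝ))

theorem eps_pos (hn : 0 < n) : (0 : ℝ) < 1 / (2 * (n : ℝ)) := by
  have : (0 : ℝ) < n := by exact_mod_cast hn
  positivity

theorem eps_le (hn : 0 < n) : 1 / (2 * (n : ℝ)) ≤ 1 := by
  have : (1 : ℝ) ≤ n := by exact_mod_cast hn
  rw [div_le_one (by linarith)]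
  linarith

theorem tgt_mem (x : Sol n) (i : Fin n) : tgt x i = 1 ∨ tgt x i = 1 / (2 * (n : ℝ)) := by
  unfold tgt; split_ifs <;> simp

theorem fix_inv (x y : Sol n) {p : Fin n → ℝ} (hp : Inv x p) : Inv y (fix x p) := by
  intro i
  unfold fix
  split_ifs with h
  · by_cases hi : i = h.choose
    · rw [hi, Function.update_self]
      exact tgt_mem x _
    · rw [Function.update_of_ne hi]
      exact hp i
  · exact hp i

theorem bad_fix_card (x : Sol n) (p : Fin n → ℝ) :
    (bad x (fix x p)).card = (bad x p).card - 1 := by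
  classical
  by_cases h : ∃ i, p i ≠ tgt x i
  · have h1 : bad x (fix x p) = (bad x p).erase h.choose := by
      ext i
      unfold fix
      rw [dif_pos h, mem_bad, Finset.mem_erase, mem_bad]
      by_cases hi : i = h.choose
      · rw [hi, Function.update_self]
        simp
      · rw [Function.update_of_ne hi]
        simp [hi]
    rw [h1, Finset.card_erase_of_mem (mem_bad.2 h.choose_spec)]
  · have h1 : fix x p = p := by unfold fix; rw [dif_neg h]
    have h2 : bad x p = ∅ := by
      ext i
      rw [mem_bad]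
      simp only [Finset.notMem_empty, iff_false, ne_eq, not_not]
      by_contra h3
      exact h ⟨i, h3⟩
    rw [h1, h2]
    rfl

theorem not_bad {x : Sol n} {p : Fin n → ℝ} {i : Fin n} (h : i ∉ bad x p) : p i = tgt x i := by
  rw [mem_bad, not_not] at h
  exact h

theorem kk_eq (x : Sol n) : (kk x : ℝ) = ∑ i : Fin n, if x i = false then 1 else 0 := by
  unfold kk; rw [Finset.card_filter]; push_cast; rfl

theorem card_ite (S : Finset (Fin n)) : (S.card : ℝ) = ∑ i : Fin n, if i ∈ S then 1 else 0 := by
  simp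

theorem load_false_ge (hn : 0 < n) {x : Sol n} {p : Fin n → ℝ} (hp : Inv x p) :
    (kk x : ℝ) - (bad x p).card ≤ load x p false := by
  classical
  rw [kk_eq, card_ite, ← Finset.sum_sub_distrib]
  unfold load
  refine Finset.sum_le_sum fun i _ => ?_
  have hpos : 0 < p i := by
    rcases hp i with h | h <;> rw [h]
    · norm_num
    · exact eps_pos hn
  by_cases hb : i ∈ bad x p
  · rw [if_pos hb]
    split_ifs <;> linarith
  · rw [if_neg hb]
    have h3 := not_bad hb
    unfold tgt at h3
    split_ifs with h4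
    · rw [if_pos h4] at h3
      linarith
    · linarith

theorem load_true_le (hn : 0 < n) {x : Sol n} {p : Fin n → ℝ} (hp : Inv x p) :
    load x p true ≤ (bad x p).card + 1 / 2 := by
  classical
  have h1 : ((bad x p).card : ℝ) + 1 / 2 =
      ∑ i : Fin n, ((if i ∈ bad x p then 1 else 0) + 1 / (2 * (n : ℝ))) := by
    rw [Finset.sum_add_distrib, ← card_ite, Finset.sum_const, Finset.card_univ, Fintype.card_fin,
      nsmul_eq_mul]
    have : (0 : ℝ) < n := by exact_mod_cast hn
    congr 1
    field_simp
  rw [h1]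
  unfold load
  refine Finset.sum_le_sum fun i _ => ?_
  have he := eps_pos hn
  have he1 := eps_le hn
  have hpos : p i ≤ 1 := by
    rcases hp i with h | h <;> rw [h]
    exact he1
  by_cases hb : i ∈ bad x p
  · rw [if_pos hb]
    split_ifs <;> linarith
  · rw [if_neg hb]
    have h3 := not_bad hb
    unfold tgt at h3
    split_ifs with h4
    · rw [if_neg (by rw [h4]; simp)] at h3
      linarith
    · linarith

/-- The signed change of the loads when the bits in `F` are flipped. -/
def dload (x : Sol n) (p : Fin n → ℝ) (F : Finset (Fin n)) : ℝ :=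
  ∑ i, if i ∈ F then (if x i = true then p i else - p i) else 0

theorem load_flip_false (x : Sol n) (p : Fin n → ℝ) (F : Finset (Fin n)) :
    load (flip x F) p false = load x p false + dload x p F := by
  unfold load dload flip
  rw [← Finset.sum_add_distrib]
  refine Finset.sum_congr rfl fun i _ => ?_
  by_cases hi : i ∈ F <;> cases hx : x i <;> simp [hi]

theorem load_flip_true (x : Sol n) (p : Fin n → ℝ) (F : Finset (Fin n)) :
    load (flip x F) p true = load x p true - dload x p F := by
  unfold load dload flip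
  rw [← Finset.sum_sub_distrib]
  refine Finset.sum_congr rfl fun i _ => ?_
  by_cases hi : i ∈ F <;> cases hx : x i <;> simp [hi]

/-- the flipped jobs of the machine `false` -/
def pA (x : Sol n) (F : Finset (Fin n)) : Finset (Fin n) := F.filter (fun i => x i = false)

/-- the flipped jobs of the machine `true` -/
def pB (x : Sol n) (F : Finset (Fin n)) : Finset (Fin n) := F.filter (fun i => x i = true)

theorem card_AB (x : Sol n) (F : Finset (Fin n)) : (pA x F).card + (pB x F).card = F.card := by
  unfold pA pB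
  have := Finset.card_filter_add_card_filter_not (s := F) (fun i => x i = false)
  simpa using this

theorem kk_flip (x : Sol n) (F : Finset (Fin n)) :
    (kk (flip x F) : ℝ) = kk x + ((pB x F).card - (pA x F).card) := by
  have h1 : ((pB x F).card : ℝ) = ∑ i, if i ∈ F ∧ x i = true then 1 else 0 := by
    rw [card_ite]
    refine Finset.sum_congr rfl fun i _ => ?_
    simp [pB]
  have h2 : ((pA x F).card : ℝ) = ∑ i, if i ∈ F ∧ x i = false then 1 else 0 := by
    rw [card_ite]
    refine Finset.sum_congr rfl fun i _ => ?_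
    simp [pA]
  rw [kk_eq, kk_eq, h1, h2, ← Finset.sum_sub_distrib, ← Finset.sum_add_distrib]
  refine Finset.sum_congr rfl fun i _ => ?_
  unfold flip
  by_cases hi : i ∈ F <;> cases hx : x i <;> simp [hi]

theorem inv_pos (hn : 0 < n) {x : Sol n} {p : Fin n → ℝ} (hp : Inv x p) (i : Fin n) : 0 < p i := by
  rcases hp i with h | h <;> rw [h]
  · norm_num
  · exact eps_pos hn

/-- without a job leaving the machine `false` nothing is accepted -/
theorem select_of_empty (hn : 0 < n) {x : Sol n} {p : Fin n → ℝ} (hp : Inv x p)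
    (hheavy : load x p true ≤ load x p false) {F : Finset (Fin n)} (hF : ¬ (pA x F).Nonempty) :
    select x p F = x := by
  classical
  rw [Finset.not_nonempty_iff_eq_empty] at hF
  unfold select
  split_ifs with h
  · have h1 : F = ∅ := by
      by_contra h2
      obtain ⟨j, hj⟩ := Finset.nonempty_iff_ne_empty.2 h2
      have hall : ∀ i ∈ F, x i = true := by
        intro i hi
        by_contra h3
        have : i ∈ pA x F := Finset.mem_filter.2 ⟨hi, by simpa using h3⟩
        rw [hF] at this
        simp at this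
      have h3 : 0 < dload x p F := by
        unfold dload
        refine Finset.sum_pos' (fun i _ => ?_) ⟨j, Finset.mem_univ _, ?_⟩
        · split_ifs with h4 h5
          · exact (inv_pos hn hp i).le
          · exact absurd (hall i h4) h5
          · exact le_rfl
        · rw [if_pos hj, if_pos (hall j hj)]
          exact inv_pos hn hp j
      have h4 : load (flip x F) p false ≤ makespan (flip x F) p := le_max_left _ _
      have h5 : makespan x p = load x p false := max_eq_left hheavy
      rw [load_flip_false] at h4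
      linarith
    subst h1
    funext i
    simp [flip]
  · rfl

/-- change of the number of jobs on the machine `false` -/
noncomputable def dk (x : Sol n) (p : Fin n → ℝ) (F : Finset (Fin n)) : ℝ :=
  (kk (select x p F) : ℝ) - kk x

theorem dk_cases (x : Sol n) (p : Fin n → ℝ) (F : Finset (Fin n)) :
    dk x p F = 0 ∨ dk x p F = (pB x F).card - (pA x F).card := by
  classical
  unfold dk select
  split_ifs
  · right; rw [kk_flip]; ring
  · left; ring

theorem card_le_two_pow (m : ℕ) (hm : 1 ≤ m) : (m : ℝ) ≤ 2 ^ m / 2 := by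
  have h : ∀ m : ℕ, 1 ≤ m → m * 2 ≤ 2 ^ m := by
    intro m hm
    induction m, hm using Nat.le_induction with
    | base => norm_num
    | succ m hm ih => rw [pow_succ]; omega
  have := h m hm
  rw [le_div_iff₀ (by norm_num)]
  exact_mod_cast this

theorem card_sq_le_two_pow (m : ℕ) : (m : ℝ) ^ 2 ≤ 9 / 8 * 2 ^ m := by
  have h : ∀ m : ℕ, 8 * m ^ 2 ≤ 9 * 2 ^ m := by
    intro m
    rcases Nat.lt_or_ge m 4 with h | h
    · interval_cases m <;> norm_num
    · induction m, h using Nat.le_induction with
      | base => norm_num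
      | succ m hm ih => rw [pow_succ 2 m]; nlinarith
  have : (8 : ℝ) * m ^ 2 ≤ 9 * 2 ^ m := by exact_mod_cast h m
  linarith

theorem abs_dk_le (hn : 0 < n) {x : Sol n} {p : Fin n → ℝ} (hp : Inv x p)
    (hheavy : load x p true ≤ load x p false) (F : Finset (Fin n)) :
    |dk x p F| ≤ (if (pA x F).Nonempty then (2 : ℝ) ^ F.card else 0) / 2 ∧
      dk x p F ^ 2 ≤ 9 / 8 * (if (pA x F).Nonempty then (2 : ℝ) ^ F.card else 0) := by
  by_cases hA : (pA x F).Nonempty
  · rw [if_pos hA]
    have h1 : |dk x p F| ≤ F.card := by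
      rcases dk_cases x p F with h | h
      · rw [h, abs_zero]; positivity
      · rw [h, ← card_AB x F]
        push_cast
        rw [abs_le]
        have : (0 : ℝ) ≤ (pA x F).card := Nat.cast_nonneg _
        have : (0 : ℝ) ≤ (pB x F).card := Nat.cast_nonneg _
        constructor <;> linarith
    have h2 : 1 ≤ F.card := by
      obtain ⟨i, hi⟩ := hA
      exact Finset.card_pos.2 ⟨i, (Finset.mem_filter.1 hi).1⟩
    constructor
    · exact h1.trans (card_le_two_pow _ h2)
    · rw [← sq_abs]
      exact (pow_le_pow_left₀ (abs_nonneg _) h1 2).trans (card_sq_le_two_pow _)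
  · have h1 : dk x p F = 0 := by
      unfold dk; rw [select_of_empty hn hp hheavy hA, sub_self]
    rw [h1, if_neg hA]
    simp

theorem bad_select_card (hn : 0 < n) {x : Sol n} {p : Fin n → ℝ} (hp : Inv x p)
    (hheavy : load x p true ≤ load x p false) (F : Finset (Fin n)) :
    (2 : ℝ) ^ (bad (select x p F) p).card ≤
      2 ^ (bad x p).card * (1 + if (pA x F).Nonempty then (2 : ℝ) ^ F.card else 0) := by
  classical
  by_cases hA : (pA x F).Nonempty
  · rw [if_pos hA]
    have h1 : (bad (select x p F) p).card ≤ (bad x p).card + F.card := by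
      have h2 : bad (select x p F) p ⊆ bad x p ∪ F := by
        intro i hi
        rw [mem_bad] at hi
        rw [Finset.mem_union, mem_bad]
        by_cases hiF : i ∈ F
        · exact Or.inr hiF
        · left
          have h3 : tgt (select x p F) i = tgt x i := by
            unfold tgt select flip
            split_ifs <;> simp_all
          rwa [h3] at hi
      exact (Finset.card_le_card h2).trans (Finset.card_union_le _ _)
    calc (2 : ℝ) ^ (bad (select x p F) p).card ≤ 2 ^ ((bad x p).card + F.card) :=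
          pow_le_pow_right₀ (by norm_num) h1
      _ = 2 ^ (bad x p).card * 2 ^ F.card := pow_add _ _ _
      _ ≤ _ := mul_le_mul_of_nonneg_left (by linarith) (by positivity)
  · rw [if_neg hA, select_of_empty hn hp hheavy hA]
    simp

/-- the probability-weighted exponential of the number of flips, when a job leaves `false` -/
theorem sum_A (hn : 0 < n) (x : Sol n) :
    ∑ F : Finset (Fin n), prob F * (if (pA x F).Nonempty then (2 : ℝ) ^ F.card else 0) ≤
      6 * kk x / n := by
  classical
  have h1 : ∀ F : Finset (Fin n), (if (pA x F).Nonempty then (2 : ℝ) ^ F.card else 0) ≤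
      ∑ i ∈ Finset.univ.filter (fun i => x i = false), (if i ∈ F then (2 : ℝ) ^ F.card else 0) := by
    intro F
    split_ifs with h
    · obtain ⟨i, hi⟩ := h
      obtain ⟨hi1, hi2⟩ := Finset.mem_filter.1 hi
      refine le_trans (le_of_eq ?_) (Finset.single_le_sum (f := fun i =>
        if i ∈ F then (2 : ℝ) ^ F.card else 0) (fun i _ => ?_)
        (Finset.mem_filter.2 ⟨Finset.mem_univ i, hi2⟩))
      · simp [hi1]
      · split_ifs <;> positivity
    · exact Finset.sum_nonneg fun i _ => by split_ifs <;> positivity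
  calc ∑ F : Finset (Fin n), prob F * (if (pA x F).Nonempty then (2 : ℝ) ^ F.card else 0) ≤
        ∑ F : Finset (Fin n), prob F * ∑ i ∈ Finset.univ.filter (fun i => x i = false),
          (if i ∈ F then (2 : ℝ) ^ F.card else 0) :=
        Finset.sum_le_sum fun F _ => mul_le_mul_of_nonneg_left (h1 F) (prob_nonneg hn F)
    _ = ∑ i ∈ Finset.univ.filter (fun i => x i = false), ∑ F : Finset (Fin n),
          prob F * (if i ∈ F then (2 : ℝ) ^ F.card else 0) := by
        rw [Finset.sum_comm]
        exact Finset.sum_congr rfl fun F _ => Finset.mul_sum _ _ _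
    _ ≤ ∑ i ∈ Finset.univ.filter (fun i => x i = false), (6 / (n : ℝ)) :=
        Finset.sum_le_sum fun i _ => sum_two_pow hn i
    _ = 6 * kk x / n := by
        rw [Finset.sum_const, nsmul_eq_mul]
        unfold kk
        ring

theorem kk_le (x : Sol n) : kk x ≤ n := by
  unfold kk
  simpa using Finset.card_le_univ (Finset.univ.filter (fun i => x i = false))

theorem sum_cardA (x : Sol n) : ∑ F : Finset (Fin n), prob F * ((pA x F).card : ℝ) = kk x / n := by
  classical
  have h1 : ∀ F : Finset (Fin n), ((pA x F).card : ℝ) =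
      ∑ i ∈ Finset.univ.filter (fun i => x i = false), if ({i} : Finset (Fin n)) ⊆ F then 1 else 0 := by
    intro F
    rw [Finset.sum_filter, card_ite]
    refine Finset.sum_congr rfl fun i _ => ?_
    unfold pA
    by_cases h : x i = false <;> simp [h]
  simp only [h1, Finset.mul_sum]
  rw [Finset.sum_comm]
  have h2 : ∀ i : Fin n, ∑ F : Finset (Fin n), prob F *
      (if ({i} : Finset (Fin n)) ⊆ F then 1 else 0) = 1 / (n : ℝ) := by
    intro i
    rw [sum_prob_sup, Finset.card_singleton, pow_one]
  rw [Finset.sum_congr rfl (fun i _ => h2 i), Finset.sum_const, nsmul_eq_mul]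
  unfold kk
  ring

theorem sum_cardB (x : Sol n) : ∑ F : Finset (Fin n), prob F *
    (if (pA x F).Nonempty then ((pB x F).card : ℝ) else 0) =
      ((n : ℝ) - kk x) * (1 / n - 1 / n * (1 - 1 / (n : ℝ)) ^ kk x) := by
  classical
  set Hc := Finset.univ.filter (fun i => x i = true) with hHc
  have hcard : Hc.card + kk x = n := by
    unfold kk
    have := Finset.card_filter_add_card_filter_not (s := (Finset.univ : Finset (Fin n)))
      (fun i => x i = true)
    simpa [hHc] using this
  have h1 : ∀ F : Finset (Fin n), (if (pA x F).Nonempty then ((pB x F).card : ℝ) else 0) =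
      ∑ j ∈ Hc, ((if ({j} : Finset (Fin n)) ⊆ F then 1 else 0) -
        (if ({j} : Finset (Fin n)) ⊆ F ∧ F ⊆ Hc then 1 else 0)) := by
    intro F
    by_cases hA : (pA x F).Nonempty
    · obtain ⟨i, hi⟩ := hA
      have hnot : ¬ F ⊆ Hc := by
        intro h
        have h2 := (Finset.mem_filter.1 hi).2
        have h3 := (Finset.mem_filter.1 (h (Finset.mem_filter.1 hi).1)).2
        rw [h2] at h3
        simp at h3
      rw [if_pos ⟨i, hi⟩]
      simp only [hnot, and_false, if_false, sub_zero]
      rw [hHc, Finset.sum_filter, card_ite]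
      refine Finset.sum_congr rfl fun i _ => ?_
      unfold pB
      by_cases h : x i = true <;> simp [h]
    · have hsub : F ⊆ Hc := by
        intro i hi
        refine Finset.mem_filter.2 ⟨Finset.mem_univ _, ?_⟩
        by_contra h
        exact hA ⟨i, Finset.mem_filter.2 ⟨hi, by simpa using h⟩⟩
      rw [if_neg hA]
      simp [hsub]
  simp only [h1, Finset.mul_sum]
  rw [Finset.sum_comm]
  have h2 : ∀ j ∈ Hc, ∑ F : Finset (Fin n), prob F *
      ((if ({j} : Finset (Fin n)) ⊆ F then 1 else 0) -
        (if ({j} : Finset (Fin n)) ⊆ F ∧ F ⊆ Hc then 1 else 0)) =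
      1 / (n : ℝ) - 1 / n * (1 - 1 / (n : ℝ)) ^ kk x := by
    intro j hj
    have e1 := sum_prob_sup ({j} : Finset (Fin n))
    have e2 := sum_prob_between ({j} : Finset (Fin n)) Hc (Finset.singleton_subset_iff.2 hj)
    rw [Finset.card_singleton, pow_one] at e1 e2
    have e3 : n - Hc.card = kk x := by omega
    rw [e3] at e2
    rw [← e2, ← e1, ← Finset.sum_sub_distrib]
    exact Finset.sum_congr rfl fun F _ => by ring
  rw [Finset.sum_congr rfl h2, Finset.sum_const, nsmul_eq_mul]
  have h3 : (Hc.card : ℝ) = n - kk x := by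
    have : ((Hc.card + kk x : ℕ) : ℝ) = n := by rw [hcard]
    push_cast at this
    linarith
  rw [h3]

/-- drift of the unconstrained process -/
theorem sum_BA (hn : 0 < n) (x : Sol n) : |∑ F : Finset (Fin n), prob F *
    (if (pA x F).Nonempty then ((pB x F).card : ℝ) - (pA x F).card else 0)| ≤
      2 * ((kk x : ℝ) / n) ^ 2 := by
  have hn' : (0 : ℝ) < n := by exact_mod_cast hn
  have hn1 : (1 : ℝ) ≤ n := by exact_mod_cast hn
  have h1 : ∑ F : Finset (Fin n), prob F *
      (if (pA x F).Nonempty then ((pB x F).card : ℝ) - (pA x F).card else 0) =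
      ((n : ℝ) - kk x) * (1 / n - 1 / n * (1 - 1 / (n : ℝ)) ^ kk x) - kk x / n := by
    rw [← sum_cardB, ← sum_cardA, ← Finset.sum_sub_distrib]
    refine Finset.sum_congr rfl fun F _ => ?_
    rw [← mul_sub]
    congr 1
    split_ifs with h
    · rfl
    · rw [Finset.not_nonempty_iff_eq_empty] at h
      rw [h]; simp
  set t : ℝ := (kk x : ℝ) / n with ht
  set ρ : ℝ := (1 - 1 / (n : ℝ)) ^ kk x with hρ
  have ht0 : 0 ≤ t := by positivity
  have ht1 : t ≤ 1 := by
    rw [ht, div_le_one hn']
    exact_mod_cast kk_le x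
  have h2 : ((n : ℝ) - kk x) * (1 / n - 1 / n * ρ) = (1 - t) * (1 - ρ) := by
    rw [ht]; field_simp
  have h3 : 1 - t ≤ ρ := by
    have := one_add_mul_le_pow (a := - (1 / (n : ℝ))) (by
      have : 1 / (n : ℝ) ≤ 1 := by rw [div_le_one hn']; exact hn1
      linarith) (kk x)
    rw [← sub_eq_add_neg, ← hρ] at this
    refine le_trans (le_of_eq ?_) this
    rw [ht]; ring
  have h4 : ρ ≤ 1 - t + t ^ 2 := by
    have e1 : 1 + t ≤ (1 + 1 / (n : ℝ)) ^ kk x := by
      have := one_add_mul_le_pow (a := 1 / (n : ℝ)) (by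
        have : 0 ≤ 1 / (n : ℝ) := by positivity
        linarith) (kk x)
      refine le_trans (le_of_eq ?_) this
      rw [ht]; ring
    have e2 : ρ * (1 + 1 / (n : ℝ)) ^ kk x ≤ 1 := by
      rw [hρ, ← mul_pow]
      apply pow_le_one₀
      · apply mul_nonneg
        · have : 1 / (n : ℝ) ≤ 1 := by rw [div_le_one hn']; exact hn1
          linarith
        · positivity
      · have : 0 ≤ (1 / (n : ℝ)) ^ 2 := by positivity
        nlinarith
    have e3 : 0 ≤ ρ := by
      rw [hρ]
      apply pow_nonneg
      have : 1 / (n : ℝ) ≤ 1 := by rw [div_le_one hn']; exact hn1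
      linarith
    have e4 : ρ * (1 + t) ≤ 1 := (mul_le_mul_of_nonneg_left e1 e3).trans e2
    have e5 : 1 ≤ (1 - t + t ^ 2) * (1 + t) := by
      have : 0 ≤ t ^ 3 := by positivity
      nlinarith
    by_contra hcon
    push Not at hcon
    have := mul_lt_mul_of_pos_right hcon (show 0 < 1 + t by linarith)
    linarith
  rw [h1, h2, abs_le]
  constructor
  · have : (1 - t) * (t - t ^ 2) ≤ (1 - t) * (1 - ρ) :=
      mul_le_mul_of_nonneg_left (by linarith) (by linarith)
    have : 0 ≤ t ^ 3 := by positivity
    nlinarith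
  · have : (1 - t) * (1 - ρ) ≤ (1 - t) * t :=
      mul_le_mul_of_nonneg_left (by linarith) (by linarith)
    nlinarith

/-- in a repaired state everything that moves a job from `false` (but not all) is accepted -/
theorem select_good (hn : 0 < n) {x : Sol n} {p : Fin n → ℝ} (hp : Inv x p)
    (hgood : bad x p = ∅) {F : Finset (Fin n)} (hA : (pA x F).Nonempty)
    (hF : ¬ (Finset.univ.filter (fun i => x i = false)) ⊆ F) : select x p F = flip x F := by
  classical
  have hpt : ∀ i, p i = tgt x i := fun i => not_bad (by rw [hgood]; simp)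
  have he := eps_pos hn
  have hlf : load x p false = kk x := by
    rw [kk_eq]
    unfold load
    refine Finset.sum_congr rfl fun i _ => ?_
    split_ifs with h
    · rw [hpt i]; unfold tgt; rw [if_pos h]
    · rfl
  have hlt : load x p true ≤ 1 / 2 := by
    have := load_true_le hn hp
    rw [hgood] at this
    simpa using this
  have hlt0 : 0 ≤ load x p true := by
    unfold load
    exact Finset.sum_nonneg fun i _ => by
      split_ifs
      · exact (inv_pos hn hp i).le
      · exact le_rfl
  -- the number of flipped jobs of `false`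
  have hcard : ((pA x F).card : ℝ) + 1 ≤ kk x := by
    have h1 : (pA x F).card < kk x := by
      unfold kk
      apply Finset.card_lt_card
      rw [Finset.ssubset_iff_subset_ne]
      constructor
      · intro i hi
        exact Finset.mem_filter.2 ⟨Finset.mem_univ _, (Finset.mem_filter.1 hi).2⟩
      · intro h
        apply hF
        rw [← h]
        exact Finset.filter_subset _ _
    exact_mod_cast h1
  have hcard1 : (1 : ℝ) ≤ (pA x F).card := by
    exact_mod_cast Finset.card_pos.2 hA
  have hd : dload x p F = (∑ i, if i ∈ F ∧ x i = true then p i else 0) - (pA x F).card := by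
    have h2 : ((pA x F).card : ℝ) = ∑ i, if i ∈ F ∧ x i = false then 1 else 0 := by
      rw [card_ite]
      refine Finset.sum_congr rfl fun i _ => ?_
      simp [pA]
    rw [h2, ← Finset.sum_sub_distrib]
    unfold dload
    refine Finset.sum_congr rfl fun i _ => ?_
    by_cases hi : i ∈ F <;> cases hx : x i
    · have := hpt i
      unfold tgt at this
      rw [if_pos hx] at this
      simp [hi, this]
    · simp [hi]
    · simp [hi]
    · simp [hi]
  have hsB : ∑ i, (if i ∈ F ∧ x i = true then p i else 0) ≤ load x p true := by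
    unfold load
    refine Finset.sum_le_sum fun i _ => ?_
    have := (inv_pos hn hp i).le
    split_ifs with h1 h2
    · exact le_rfl
    · exact absurd h1.2 h2
    · exact this
    · exact le_rfl
  have hsB0 : 0 ≤ ∑ i, (if i ∈ F ∧ x i = true then p i else 0) :=
    Finset.sum_nonneg fun i _ => by
      split_ifs
      · exact (inv_pos hn hp i).le
      · exact le_rfl
  unfold select
  rw [if_pos]
  unfold makespan
  rw [load_flip_false, load_flip_true, hlf, hd]
  apply max_le
  · refine le_trans ?_ (le_max_left _ _)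
    linarith
  · refine le_trans ?_ (le_max_left _ _)
    linarith

/-- drift of the number of jobs on `false` in a repaired state -/
theorem drift_good (hn : 0 < n) {x : Sol n} {p : Fin n → ℝ} (hp : Inv x p)
    (hgood : bad x p = ∅) (hk : 3 ≤ kk x) :
    |∑ F : Finset (Fin n), prob F * dk x p F| ≤ 3 * ((kk x : ℝ) / n) ^ 2 := by
  classical
  have hn' : (0 : ℝ) < n := by exact_mod_cast hn
  have hn1 : (1 : ℝ) ≤ n := by exact_mod_cast hn
  have hheavy : load x p true ≤ load x p false := by
    have h1 := load_true_le hn hp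
    have h2 := load_false_ge hn hp
    rw [hgood] at h1 h2
    have h3 : (3 : ℝ) ≤ kk x := by exact_mod_cast hk
    simp only [Finset.card_empty, Nat.cast_zero] at h1 h2
    linarith
  have hpt : ∀ F : Finset (Fin n), |dk x p F -
      (if (pA x F).Nonempty then ((pB x F).card : ℝ) - (pA x F).card else 0)| ≤
      n * (if (Finset.univ.filter (fun i => x i = false)) ⊆ F then 1 else 0) := by
    intro F
    by_cases hA : (pA x F).Nonempty
    · rw [if_pos hA]
      by_cases hF : (Finset.univ.filter (fun i => x i = false)) ⊆ F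
      · rw [if_pos hF, mul_one]
        have hc : (F.card : ℝ) ≤ n := by
          have : F.card ≤ n := by simpa using Finset.card_le_univ F
          exact_mod_cast this
        have hab : ((pA x F).card : ℝ) + (pB x F).card = F.card := by
          exact_mod_cast card_AB x F
        have h1 : (0 : ℝ) ≤ (pA x F).card := Nat.cast_nonneg _
        have h2 : (0 : ℝ) ≤ (pB x F).card := Nat.cast_nonneg _
        rcases dk_cases x p F with h | h
        · rw [h, abs_le]
          constructor <;> linarith
        · rw [h, sub_self, abs_zero]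
          exact hn'.le
      · rw [if_neg hF]
        have : dk x p F = (pB x F).card - (pA x F).card := by
          unfold dk
          rw [select_good hn hp hgood hA hF, kk_flip]
          ring
        rw [this]
        simp
    · have h1 : dk x p F = 0 := by
        unfold dk; rw [select_of_empty hn hp hheavy hA, sub_self]
      rw [h1, if_neg hA, sub_self, abs_zero]
      split_ifs <;> positivity
  have h1 : |∑ F : Finset (Fin n), prob F * dk x p F - ∑ F : Finset (Fin n), prob F *
      (if (pA x F).Nonempty then ((pB x F).card : ℝ) - (pA x F).card else 0)| ≤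
      n * (1 / (n : ℝ)) ^ kk x := by
    rw [← Finset.sum_sub_distrib]
    refine (Finset.abs_sum_le_sum_abs _ _).trans ?_
    calc ∑ F : Finset (Fin n), |prob F * dk x p F - prob F *
          (if (pA x F).Nonempty then ((pB x F).card : ℝ) - (pA x F).card else 0)| ≤
          ∑ F : Finset (Fin n), prob F *
            (n * (if (Finset.univ.filter (fun i => x i = false)) ⊆ F then 1 else 0)) := by
          refine Finset.sum_le_sum fun F _ => ?_
          rw [← mul_sub, abs_mul, abs_of_nonneg (prob_nonneg hn F)]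
          exact mul_le_mul_of_nonneg_left (hpt F) (prob_nonneg hn F)
      _ = n * ∑ F : Finset (Fin n), prob F *
            (if (Finset.univ.filter (fun i => x i = false)) ⊆ F then 1 else 0) := by
          rw [Finset.mul_sum]
          exact Finset.sum_congr rfl fun F _ => by ring
      _ = n * (1 / (n : ℝ)) ^ kk x := by
          rw [sum_prob_sup]
          rfl
  have h2 := sum_BA hn x
  have h3 : n * (1 / (n : ℝ)) ^ kk x ≤ ((kk x : ℝ) / n) ^ 2 := by
    have e1 : (1 / (n : ℝ)) ^ kk x ≤ (1 / (n : ℝ)) ^ 3 :=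
      pow_le_pow_of_le_one (by positivity) (by rw [div_le_one hn']; exact hn1) hk
    have e2 : n * (1 / (n : ℝ)) ^ 3 = (1 / n) ^ 2 := by field_simp
    have e3 : (1 / (n : ℝ)) ^ 2 ≤ ((kk x : ℝ) / n) ^ 2 := by
      have : (1 : ℝ) ≤ kk x := by exact_mod_cast (by omega : 1 ≤ kk x)
      gcongr
    calc n * (1 / (n : ℝ)) ^ kk x ≤ n * (1 / (n : ℝ)) ^ 3 :=
          mul_le_mul_of_nonneg_left e1 hn'.le
      _ = (1 / n) ^ 2 := e2
      _ ≤ _ := e3
  rw [abs_le] at h1 h2 ⊢
  constructor <;> linarith [h1.1, h1.2, h2.1, h2.2]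

/-! ### The potential -/

/-- the potential before truncation -/
noncomputable def g1 (r : ℕ) (x : Sol n) (p : Fin n → ℝ) : ℝ :=
  n / (48 * r) * ((r : ℝ) ^ 2 - ((kk x : ℝ) - 2 * r) ^ 2) - r * (2 ^ (bad x p).card - 1)

/-- the potential -/
noncomputable def gg (r : ℕ) (x : Sol n) (p : Fin n → ℝ) : ℝ := max 0 (g1 r x p)

theorem pow_aux (b r : ℕ) (hr : 16 ≤ r) (h : 4 * 2 ^ b < 4 + 3 * (r + 1) ^ 2) : 2 * b + 2 ≤ r := by
  by_contra hcon
  push Not at hcon
  have hb : 8 ≤ b := by omega
  have h1 : r + 1 ≤ 2 * b + 2 := by omega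
  have h2 : (r + 1) ^ 2 ≤ (2 * b + 2) ^ 2 := Nat.pow_le_pow_left h1 2
  have h3 : ∀ b : ℕ, 8 ≤ b → 3 * (b + 1) ^ 2 + 1 ≤ 2 ^ b := by
    intro b hb
    induction b, hb using Nat.le_induction with
    | base => norm_num
    | succ b hb ih =>
      have e : 2 ^ (b + 1) = 2 * 2 ^ b := pow_succ' 2 b
      rw [e]
      nlinarith
  have h4 := h3 b hb
  have h5 : (2 * b + 2) ^ 2 = 4 * (b + 1) ^ 2 := by ring
  rw [h5] at h2
  omega

/-- consequences of a positive potential -/
theorem range_of_pos {r : ℕ} (hr : 16 ≤ r) (hn1 : 36 * r ^ 2 ≤ n) (hn2 : n < 36 * (r + 1) ^ 2)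
    {x : Sol n} {p : Fin n → ℝ} (hg : 0 < g1 r x p) :
    |(kk x : ℝ) - 2 * r| ≤ r ∧ 2 * (bad x p).card + 2 ≤ kk x ∧ r ≤ kk x ∧ kk x ≤ 3 * r := by
  have hr0 : (0 : ℝ) < r := by
    have : 0 < r := by omega
    exact_mod_cast this
  have hn0 : (0 : ℝ) < n := by
    have : 0 < n := by nlinarith
    exact_mod_cast this
  have hb1 : (1 : ℝ) ≤ 2 ^ (bad x p).card := one_le_pow₀ (by norm_num)
  unfold g1 at hg
  have h1 : 0 < n / (48 * (r : ℝ)) * ((r : ℝ) ^ 2 - ((kk x : ℝ) - 2 * r) ^ 2) := by
    have : 0 ≤ (r : ℝ) * (2 ^ (bad x p).card - 1) := mul_nonneg hr0.le (by linarith)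
    linarith
  have hα : 0 < n / (48 * (r : ℝ)) := by positivity
  have h2 : ((kk x : ℝ) - 2 * r) ^ 2 < (r : ℝ) ^ 2 := by
    have := (mul_pos_iff_of_pos_left hα).1 h1
    linarith
  have h3 : |(kk x : ℝ) - 2 * r| < r := abs_lt_of_sq_lt_sq h2 hr0.le
  have h4 := abs_lt.1 h3
  have h5 : r ≤ kk x := by
    have : (r : ℝ) < kk x := by linarith [h4.1]
    exact_mod_cast this.le
  have h6 : kk x ≤ 3 * r := by
    have : (kk x : ℝ) < 3 * r := by linarith [h4.2]
    exact_mod_cast this.le
  have h7 : 2 * (bad x p).card + 2 ≤ r := by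
    apply pow_aux _ _ hr
    have e1 : (r : ℝ) * (2 ^ (bad x p).card - 1) < n / (48 * (r : ℝ)) * (r : ℝ) ^ 2 := by
      have : n / (48 * (r : ℝ)) * ((r : ℝ) ^ 2 - ((kk x : ℝ) - 2 * r) ^ 2) ≤
          n / (48 * (r : ℝ)) * (r : ℝ) ^ 2 :=
        mul_le_mul_of_nonneg_left (by linarith [sq_nonneg ((kk x : ℝ) - 2 * r)]) hα.le
      linarith
    have e2 : n / (48 * (r : ℝ)) * (r : ℝ) ^ 2 = r * (n / 48) := by field_simp
    rw [e2] at e1
    have e3 := lt_of_mul_lt_mul_left e1 hr0.le
    have e4 : (n : ℝ) < 36 * ((r : ℝ) + 1) ^ 2 := by exact_mod_cast hn2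
    have e5 : 4 * (2 : ℝ) ^ (bad x p).card < 4 + 3 * ((r : ℝ) + 1) ^ 2 := by linarith
    exact_mod_cast e5
  exact ⟨h3.le, by omega, h5, h6⟩

/-- the discrepancy is large when the potential is positive -/
theorem disc_gt (hn : 0 < n) {x : Sol n} {p : Fin n → ℝ} (hp : Inv x p)
    (hb : 2 * (bad x p).card + 2 ≤ kk x) :
    load x p true + 1 < load x p false ∧ 1 < disc x p := by
  have h1 := load_true_le hn hp
  have h2 := load_false_ge hn hp
  have h3 : 2 * ((bad x p).card : ℝ) + 2 ≤ kk x := by exact_mod_cast hb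
  have h4 : load x p true + 1 < load x p false := by linarith
  refine ⟨h4, ?_⟩
  unfold disc
  rw [abs_of_pos (by linarith)]
  linarith

/-- the main drift inequality -/
theorem main_drift {r : ℕ} (hr : 16 ≤ r) (hn1 : 36 * r ^ 2 ≤ n) (hn2 : n < 36 * (r + 1) ^ 2)
    {x : Sol n} {p : Fin n → ℝ} (hp : Inv x p) (hg : 0 < g1 r x p) :
    g1 r x p ≤ 1 + ∑ F : Finset (Fin n), prob F * g1 r (select x (fix x p) F) (fix x p) := by
  have hn : 0 < n := by nlinarith
  have hr0 : (0 : ℝ) < r := by
    have : 0 < r := by omega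
    exact_mod_cast this
  have hr16 : (16 : ℝ) ≤ r := by exact_mod_cast hr
  have hn0 : (0 : ℝ) < n := by exact_mod_cast hn
  have hnr : 36 * (r : ℝ) ^ 2 ≤ n := by exact_mod_cast hn1
  obtain ⟨hk1, hk2, hk3, hk4⟩ := range_of_pos hr hn1 hn2 hg
  set q := fix x p with hq
  have hq' : Inv x q := fix_inv x x hp
  set b := (bad x p).card with hb
  have hb0 : (bad x q).card = b - 1 := bad_fix_card x p
  have hheavy : load x q true ≤ load x q false := by
    have := (disc_gt hn hq' (by omega)).1
    linarith
  set k : ℝ := (kk x : ℝ) with hk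
  have hk0 : 0 ≤ k := Nat.cast_nonneg _
  have hk3' : (r : ℝ) ≤ k := by rw [hk]; exact_mod_cast hk3
  have hk4' : k ≤ 3 * r := by rw [hk]; exact_mod_cast hk4
  set D1 := ∑ F : Finset (Fin n), prob F * dk x q F with hD1
  set D2 := ∑ F : Finset (Fin n), prob F * dk x q F ^ 2 with hD2
  set E2 := ∑ F : Finset (Fin n), prob F * (2 : ℝ) ^ (bad (select x q F) q).card with hE2
  set W := ∑ F : Finset (Fin n), prob F * (if (pA x F).Nonempty then (2 : ℝ) ^ F.card else 0)
    with hW
  have hWle : W ≤ 6 * k / n := sum_A hn x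
  have hD1le : |D1| ≤ W / 2 := by
    refine (Finset.abs_sum_le_sum_abs _ _).trans ?_
    rw [hW, Finset.sum_div]
    refine Finset.sum_le_sum fun F _ => ?_
    rw [abs_mul, abs_of_nonneg (prob_nonneg hn F), mul_div_assoc]
    exact mul_le_mul_of_nonneg_left (abs_dk_le hn hq' hheavy F).1 (prob_nonneg hn F)
  have hD2le : D2 ≤ 9 / 8 * W := by
    rw [hW, Finset.mul_sum]
    refine Finset.sum_le_sum fun F _ => ?_
    have := mul_le_mul_of_nonneg_left (abs_dk_le hn hq' hheavy F).2 (prob_nonneg hn F)
    linarith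
  have hE2le : E2 ≤ 2 ^ (b - 1) * (1 + W) := by
    have : E2 ≤ ∑ F : Finset (Fin n), prob F * (2 ^ (bad x q).card *
        (1 + if (pA x F).Nonempty then (2 : ℝ) ^ F.card else 0)) :=
      Finset.sum_le_sum fun F _ => mul_le_mul_of_nonneg_left (bad_select_card hn hq' hheavy F)
        (prob_nonneg hn F)
    refine this.trans (le_of_eq ?_)
    rw [hb0]
    have e1 : ∀ F : Finset (Fin n), prob F * ((2 : ℝ) ^ (b - 1) *
        (1 + if (pA x F).Nonempty then (2 : ℝ) ^ F.card else 0)) =
        2 ^ (b - 1) * (prob F + prob F * if (pA x F).Nonempty then (2 : ℝ) ^ F.card else 0) := by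
      intro F; ring
    rw [Finset.sum_congr rfl (fun F _ => e1 F), ← Finset.mul_sum, Finset.sum_add_distrib, sum_prob]
  -- the expected potential
  have hsum : ∑ F : Finset (Fin n), prob F * g1 r (select x q F) q =
      n / (48 * (r : ℝ)) * ((r : ℝ) ^ 2 - ((k - 2 * r) ^ 2 + 2 * (k - 2 * r) * D1 + D2)) -
        r * (E2 - 1) := by
    have e1 : ∀ F : Finset (Fin n), prob F * g1 r (select x q F) q =
        n / (48 * (r : ℝ)) * ((r : ℝ) ^ 2 - (k - 2 * r) ^ 2) * prob F -
        n / (48 * (r : ℝ)) * (2 * (k - 2 * r)) * (prob F * dk x q F) -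
        n / (48 * (r : ℝ)) * (prob F * dk x q F ^ 2) -
        r * (prob F * (2 : ℝ) ^ (bad (select x q F) q).card) + r * prob F := by
      intro F
      have : (kk (select x q F) : ℝ) = k + dk x q F := by unfold dk; ring
      unfold g1
      rw [this]
      ring
    rw [Finset.sum_congr rfl (fun F _ => e1 F), Finset.sum_add_distrib, Finset.sum_sub_distrib,
      Finset.sum_sub_distrib, Finset.sum_sub_distrib, ← Finset.mul_sum, ← Finset.mul_sum,
      ← Finset.mul_sum, ← Finset.mul_sum, ← Finset.mul_sum, sum_prob]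
    ring
  rw [hsum]
  unfold g1
  rw [← hk, ← hb]
  have hα : 0 < n / (48 * (r : ℝ)) := by positivity
  -- reduce to one inequality
  suffices hmain : n / (48 * (r : ℝ)) * (2 * (k - 2 * r) * D1 + D2) + r * (E2 - 2 ^ b) ≤ 1 by
    have e1 : n / (48 * (r : ℝ)) * ((r : ℝ) ^ 2 - ((k - 2 * r) ^ 2 + 2 * (k - 2 * r) * D1 + D2)) =
      n / (48 * (r : ℝ)) * ((r : ℝ) ^ 2 - (k - 2 * r) ^ 2) -
      n / (48 * (r : ℝ)) * (2 * (k - 2 * r) * D1 + D2) := by ring
    rw [e1]
    linarith
  have hcross : 2 * (k - 2 * r) * D1 ≤ 2 * r * |D1| := by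
    calc 2 * (k - 2 * r) * D1 ≤ |2 * (k - 2 * r) * D1| := le_abs_self _
      _ = 2 * |k - 2 * r| * |D1| := by rw [abs_mul, abs_mul]; norm_num
      _ ≤ 2 * r * |D1| := by
          apply mul_le_mul_of_nonneg_right _ (abs_nonneg _)
          linarith
  have hkn : k / n * (12 * r) ≤ 1 := by
    rw [div_mul_eq_mul_div, div_le_one hn0]
    nlinarith
  rcases Nat.lt_or_ge b 2 with hb2 | hb2
  · -- repaired state
    have hb3 : b - 1 = 0 := by omega
    have hgood : bad x q = ∅ := by
      rw [← Finset.card_eq_zero, hb0, hb3]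
    have hD1' : |D1| ≤ 3 * (k / n) ^ 2 := drift_good hn hq' hgood (by omega)
    rw [hb3, pow_zero, one_mul] at hE2le
    have hb1 : (1 : ℝ) ≤ 2 ^ b := one_le_pow₀ (by norm_num)
    have e1 : r * (E2 - 2 ^ b) ≤ 1 / 2 := by
      have : r * (E2 - 2 ^ b) ≤ r * (6 * k / n) := mul_le_mul_of_nonneg_left (by linarith) hr0.le
      refine this.trans ?_
      have e2 : (r : ℝ) * (6 * k / n) = (k / n * (12 * r)) / 2 := by ring
      rw [e2]
      linarith
    have e3 : n / (48 * (r : ℝ)) * (2 * (k - 2 * r) * D1 + D2) ≤ 1 / 2 := by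
      have e4 : 2 * (k - 2 * r) * D1 + D2 ≤ 6 * r * (k / n) ^ 2 + 27 / 4 * (k / n) := by
        have e5 : 2 * (r : ℝ) * |D1| ≤ 2 * r * (3 * (k / n) ^ 2) :=
          mul_le_mul_of_nonneg_left hD1' (by positivity)
        have e6 : 9 / 8 * W ≤ 27 / 4 * (k / n) := by
          have : 6 * k / n = 6 * (k / n) := by ring
          rw [this] at hWle
          linarith
        linarith
      refine (mul_le_mul_of_nonneg_left e4 hα.le).trans ?_
      have e7 : n / (48 * (r : ℝ)) * (6 * r * (k / n) ^ 2 + 27 / 4 * (k / n)) =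
          (k / n * (12 * r)) * (k / r) / 96 + 9 / 64 * (k / r) := by
        field_simp
        ring
      rw [e7]
      have e8 : k / r ≤ 3 := by
        rw [div_le_iff₀ hr0]; exact hk4'
      have e9 : 0 ≤ k / r := by positivity
      have e10 : (k / n * (12 * r)) * (k / r) ≤ 1 * 3 := by
        apply mul_le_mul hkn e8 e9 (by norm_num)
      linarith
    linarith
  · -- states which still have a wrong job after the repair
    have hpow : (2 : ℝ) ^ b = 2 * 2 ^ (b - 1) := by
      rw [← pow_succ']; congr 1; omega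
    have hpow1 : (2 : ℝ) ≤ 2 ^ (b - 1) := by
      calc (2 : ℝ) = 2 ^ 1 := by norm_num
        _ ≤ 2 ^ (b - 1) := pow_le_pow_right₀ (by norm_num) (by omega)
    have hW2 : W ≤ 1 / 2 := by
      refine hWle.trans ?_
      have : 6 * k / n = (k / n * (12 * r)) / (2 * r) := by field_simp; ring
      rw [this, div_le_iff₀ (by positivity)]
      nlinarith
    have e1 : r * (E2 - 2 ^ b) ≤ - r := by
      have e2 : E2 - 2 ^ b ≤ - 1 := by
        rw [hpow]
        nlinarith
      nlinarith
    have e3 : n / (48 * (r : ℝ)) * (2 * (k - 2 * r) * D1 + D2) ≤ 3 / 8 * r + 1 / 2 := by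
      have e4 : 2 * (k - 2 * r) * D1 + D2 ≤ 6 * r * (k / n) + 27 / 4 * (k / n) := by
        have e5 : 2 * (r : ℝ) * |D1| ≤ 2 * r * (W / 2) :=
          mul_le_mul_of_nonneg_left hD1le (by positivity)
        have e6 : 6 * k / n = 6 * (k / n) := by ring
        rw [e6] at hWle
        nlinarith
      refine (mul_le_mul_of_nonneg_left e4 hα.le).trans ?_
      have e7 : n / (48 * (r : ℝ)) * (6 * r * (k / n) + 27 / 4 * (k / n)) =
          k / 8 + 9 / 64 * (k / r) := by
        field_simp
        ring
      rw [e7]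
      have e8 : k / r ≤ 3 := by
        rw [div_le_iff₀ hr0]; exact hk4'
      linarith
    linarith

/-! ### The instance -/

/-- the instance for the lower bound: `2r` jobs of size `1` on one machine, the others tiny -/
noncomputable def inst (hn : 0 < n) (r : ℕ) : Instance n where
  L := 1 / (2 * (n : ℝ))
  U := 1
  hL := eps_pos hn
  hU := eps_le hn
  x0 := fun i => decide (2 * r ≤ i.val)
  p0 := tgt (fun i => decide (2 * r ≤ i.val))
  hp0 := fun i => by
    have h1 := eps_le hn
    rcases tgt_mem (fun i : Fin n => decide (2 * r ≤ i.val)) i with h | h <;> rw [h]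
    · exact ⟨h1, le_rfl⟩
    · exact ⟨le_rfl, h1⟩
  adv := fun _ x p => fix x p
  legal := fun _ x p hp => by
    have h1 := eps_le hn
    unfold fix
    split_ifs with h
    · refine ⟨fun i => ?_, fun i j hi hj => ?_⟩
      · by_cases hi : i = h.choose
        · rw [hi, Function.update_self]
          rcases tgt_mem x h.choose with h2 | h2 <;> rw [h2]
          · exact ⟨h1, le_rfl⟩
          · exact ⟨le_rfl, h1⟩
        · rw [Function.update_of_ne hi]
          exact hp i
      · have e : ∀ i, Function.update p h.choose (tgt x h.choose) i ≠ p i → i = h.choose := by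
          intro i hi
          by_contra h2
          exact hi (Function.update_of_ne h2 _ _)
        rw [e i hi, e j hj]
    · exact ⟨hp, fun i j hi _ => absurd rfl hi⟩

theorem expT_inst {r : ℕ} (hr : 16 ≤ r) (hn1 : 36 * r ^ 2 ≤ n) (hn2 : n < 36 * (r + 1) ^ 2)
    (hn : 0 < n) : ENNReal.ofReal (n * r / 48) ≤ expT (inst hn r) := by
  have hr0 : (0 : ℝ) < r := by
    have : 0 < r := by omega
    exact_mod_cast this
  have hn0 : (0 : ℝ) < n := by exact_mod_cast hn
  have hα : 0 < n / (48 * (r : ℝ)) := by positivity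
  have hG : ∀ (x : Sol n) p, gg r x p ≤ n * r / 48 := by
    intro x p
    unfold gg
    apply max_le (by positivity)
    unfold g1
    have e1 : n / (48 * (r : ℝ)) * ((r : ℝ) ^ 2 - ((kk x : ℝ) - 2 * r) ^ 2) ≤ n * r / 48 := by
      have : n * r / 48 = n / (48 * (r : ℝ)) * (r : ℝ) ^ 2 := by field_simp
      rw [this]
      exact mul_le_mul_of_nonneg_left (by linarith [sq_nonneg ((kk x : ℝ) - 2 * r)]) hα.le
    have e2 : (1 : ℝ) ≤ 2 ^ (bad x p).card := one_le_pow₀ (by norm_num)
    have e3 : 0 ≤ (r : ℝ) * (2 ^ (bad x p).card - 1) := mul_nonneg hr0.le (by linarith)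
    linarith
  have hpos : ∀ (x : Sol n) p, 0 < gg r x p → 0 < g1 r x p := by
    intro x p h
    unfold gg at h
    rcases lt_max_iff.1 h with h | h
    · exact absurd h (lt_irrefl _)
    · exact h
  have key := drift hn (inst hn r) (gg r) Inv (n * r / 48) hG (by positivity) ?_ ?_ ?_
  · have hx0 : gg r (inst hn r).x0 (inst hn r).p0 = n * r / 48 := by
      have h1 : bad (inst hn r).x0 (inst hn r).p0 = ∅ := by
        ext i
        rw [mem_bad]
        simp [inst]
      have h2 : kk (inst hn r).x0 = 2 * r := by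
        unfold kk inst
        dsimp only
        have e1 : (Finset.univ.filter (fun i : Fin n => decide (2 * r ≤ i.val) = false)) =
            Finset.univ.filter (fun i : Fin n => i.val < 2 * r) := by
          ext i; simp
        rw [e1]
        have e2 : (Finset.univ.filter (fun i : Fin n => i.val < 2 * r)) =
            (Finset.range (2 * r)).attachFin (fun m hm => by
              have := Finset.mem_range.1 hm
              nlinarith) := by
          ext i; simp
        rw [e2, Finset.card_attachFin, Finset.card_range]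
      unfold gg g1
      rw [h1, h2]
      push_cast
      simp only [Finset.card_empty, pow_zero, sub_self, mul_zero, sub_zero, ne_eq,
        OfNat.ofNat_ne_zero, not_false_eq_true, zero_pow]
      rw [max_eq_right (by positivity)]
      field_simp
    refine expT_ge hn (inst hn r) (n * r / 48) (n * r / 48) fun N => ?_
    rw [← hx0]
    have := key N [] (inst hn r).x0 (inst hn r).p0 
      (fun i => tgt_mem (fun i : Fin n => decide (2 * r ≤ i.val)) i)
    rwa [← hx0] at this
  · intro h x p hp hg
    obtain ⟨-, hk2, -, -⟩ := range_of_pos hr hn1 hn2 (hpos x p hg)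
    unfold Stop
    rw [not_or, not_le, not_le]
    refine ⟨(disc_gt hn hp hk2).2, (disc_gt hn (fix_inv x x hp) ?_).2⟩
    change 2 * (bad x (fix x p)).card + 2 ≤ kk x
    rw [bad_fix_card]
    omega
  · intro h x p F hp
    exact fix_inv x _ hp
  · intro h x p hp hg
    have h1 := main_drift hr hn1 hn2 hp (hpos x p hg)
    have h2 : gg r x p = g1 r x p := max_eq_right (hpos x p hg).le
    rw [h2]
    refine h1.trans ?_
    gcongr with F
    · exact prob_nonneg hn F
    · exact le_max_right _ _

/-- **Answer to Q1**: `T*(n)` is at least a constant times `n^(3/2)`; in particular it is not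
`O(n log n)`. -/
theorem result : (∃ c : ℝ, 0 < c ∧ ∃ n0 : ℕ, ∀ n ≥ n0,
      ENNReal.ofReal (c * (n : ℝ) ^ (3 / 2 : ℝ)) ≤ Tstar n) ∧
    ¬ ∃ C : ℝ, ∀ n : ℕ, 2 ≤ n → Tstar n ≤ ENNReal.ofReal (C * n * Real.log n) := by
  have main : ∀ n ≥ (10000 : ℕ), ENNReal.ofReal (1 / 400 * (n : ℝ) ^ (3 / 2 : ℝ)) ≤ Tstar n := by
    intro n hn
    set r := Nat.sqrt n / 6 with hr
    have hs1 : Nat.sqrt n * Nat.sqrt n ≤ n := Nat.sqrt_le n
    have hs2 : n < (Nat.sqrt n + 1) * (Nat.sqrt n + 1) := Nat.lt_succ_sqrt n
    have hs3 : 100 ≤ Nat.sqrt n := Nat.le_sqrt.2 (by omega)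
    have h1 : 6 * r ≤ Nat.sqrt n := Nat.mul_div_le _ _
    have h2 : Nat.sqrt n + 1 ≤ 6 * (r + 1) := by omega
    have hr16 : 16 ≤ r := by omega
    have hn1 : 36 * r ^ 2 ≤ n := by
      calc 36 * r ^ 2 = (6 * r) * (6 * r) := by ring
        _ ≤ Nat.sqrt n * Nat.sqrt n := Nat.mul_le_mul h1 h1
        _ ≤ n := hs1
    have hn2 : n < 36 * (r + 1) ^ 2 := by
      calc n < (Nat.sqrt n + 1) * (Nat.sqrt n + 1) := hs2
        _ ≤ (6 * (r + 1)) * (6 * (r + 1)) := Nat.mul_le_mul h2 h2
        _ = 36 * (r + 1) ^ 2 := by ring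
    have hn0 : 0 < n := by omega
    have hn0' : (0 : ℝ) < n := by exact_mod_cast hn0
    refine le_trans (ENNReal.ofReal_le_ofReal ?_) ((expT_inst hr16 hn1 hn2 hn0).trans
      (le_iSup expT (inst hn0 r)))
    have e1 : (n : ℝ) ^ (3 / 2 : ℝ) = n * Real.sqrt n := by
      rw [Real.sqrt_eq_rpow, show (3 / 2 : ℝ) = 1 + 1 / 2 by norm_num, Real.rpow_add hn0',
        Real.rpow_one]
    have e2 : Real.sqrt n ≤ 6 * ((r : ℝ) + 1) := by
      rw [Real.sqrt_le_left (by positivity)]
      have : (n : ℝ) < 36 * ((r : ℝ) + 1) ^ 2 := by exact_mod_cast hn2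
      nlinarith
    have e3 : (16 : ℝ) ≤ r := by exact_mod_cast hr16
    rw [e1]
    have e4 : n * Real.sqrt n ≤ n * (6 * ((r : ℝ) + 1)) := mul_le_mul_of_nonneg_left e2 hn0'.le
    have e5 : (n : ℝ) * 16 ≤ n * r := mul_le_mul_of_nonneg_left e3 hn0'.le
    nlinarith
  refine ⟨⟨1 / 400, by norm_num, 10000, main⟩, ?_⟩
  rintro ⟨C, hC⟩
  obtain ⟨m, hm⟩ := exists_nat_gt (max 10 (1600 * C))
  have hm10 : (10 : ℝ) < m := lt_of_le_of_lt (le_max_left _ _) hm
  have hmC : 1600 * C < m := lt_of_le_of_lt (le_max_right _ _) hm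
  have hm10' : 10 ≤ m := by exact_mod_cast hm10.le
  have hm4 : 10000 ≤ m ^ 4 := by
    calc 10000 = 10 ^ 4 := by norm_num
      _ ≤ m ^ 4 := Nat.pow_le_pow_left hm10' 4
  have h1 := (main (m ^ 4) hm4).trans (hC (m ^ 4) (by omega))
  have hm0 : (0 : ℝ) < m := by linarith
  have e1 : (((m ^ 4 : ℕ) : ℝ)) ^ (3 / 2 : ℝ) = (m : ℝ) ^ 6 := by
    push_cast
    rw [← Real.rpow_natCast (m : ℝ) 4, ← Real.rpow_mul hm0.le, ← Real.rpow_natCast (m : ℝ) 6]
    norm_num
  have e2 : Real.log ((m ^ 4 : ℕ) : ℝ) ≤ 4 * m := by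
    push_cast
    rw [Real.log_pow]
    have := Real.log_le_sub_one_of_pos hm0
    push_cast
    linarith
  have e3 : 0 ≤ Real.log ((m ^ 4 : ℕ) : ℝ) := Real.log_natCast_nonneg _
  rw [e1, ENNReal.ofReal_le_ofReal_iff'] at h1
  have h2 : 1 / 400 * (m : ℝ) ^ 6 ≤ C * ((m ^ 4 : ℕ) : ℝ) * Real.log ((m ^ 4 : ℕ) : ℝ) := by
    rcases h1 with h | h
    · exact h
    · exact absurd h (not_le.2 (by positivity))
  have h3 : (0 : ℝ) < (m : ℝ) ^ 6 := by positivity
  have hC0 : 0 < C := by
    by_contra hneg
    push Not at hneg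
    have : C * ((m ^ 4 : ℕ) : ℝ) * Real.log ((m ^ 4 : ℕ) : ℝ) ≤ 0 := by
      apply mul_nonpos_of_nonpos_of_nonneg _ e3
      exact mul_nonpos_of_nonpos_of_nonneg hneg (Nat.cast_nonneg _)
    linarith
  have h4 : C * ((m ^ 4 : ℕ) : ℝ) * Real.log ((m ^ 4 : ℕ) : ℝ) ≤ C * ((m ^ 4 : ℕ) : ℝ) * (4 * m) :=
    mul_le_mul_of_nonneg_left e2 (by positivity)
  have h5 : C * ((m ^ 4 : ℕ) : ℝ) * (4 * m) = 4 * C * (m : ℝ) ^ 5 := by
    push_cast; ring
  rw [h5] at h4
  have h6 : 1 / 400 * (m : ℝ) ^ 6 ≤ 4 * C * (m : ℝ) ^ 5 := h2.trans h4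
  have h7 : 1 / 400 * (m : ℝ) ^ 6 = (m : ℝ) ^ 5 * (m / 400) := by ring
  have h8 : 4 * C * (m : ℝ) ^ 5 = (m : ℝ) ^ 5 * (4 * C) := by ring
  rw [h7, h8] at h6
  have h9 := le_of_mul_le_mul_left h6 (by positivity)
  linarith

end Pool.Agent.Results.MP_dc81eb_lc.ThreeHalves
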